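import Pool.Agent.Y254.Main
import Pool.Agent.Y254.EL.Zoom

set_option autoImplicit false

/-! Fat tubes with separated directions. -/

open MeasureTheory Set Metric
open scoped ENNReal NNReal

namespace Pool.Agent.R251.Smo
open Pool.Agent.Y254 (mult mult_meas mult_le pmult pmult_eq sum_card_parts tube tube_meas res
  res_norm count2)
open Pool.Agent.Y254.EL (mink sum_rpow_le)
open Pool.Agent.TH705.RR (E)

variable {n : ℕ}

theorem perp (hn : 2 ≤ n) (w : E n) : ∃ v : E n, ‖v‖ = 1 ∧ inner ℝ w v = 0 := by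
  have h1 : (Submodule.span ℝ {w})ᗮ ≠ ⊥ := by
    intro h
    rw [Submodule.orthogonal_eq_bot_iff] at h
    have h2 : Module.finrank ℝ (Submodule.span ℝ {w}) ≤ 1 := by
      have := finrank_span_le_card (R := ℝ) ({w} : Set (E n))
      simpa using this
    rw [h, finrank_top, finrank_euclideanSpace_fin] at h2
    omega
  obtain ⟨v, hv, hv0⟩ := Submodule.exists_mem_ne_zero_of_ne_bot h1
  refine ⟨‖v‖⁻¹ • v, ?_, ?_⟩
  · rw [norm_smul, norm_inv, norm_norm, inv_mul_cancel₀ (norm_ne_zero_iff.2 hv0)]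
  · rw [inner_smul_right, (Submodule.mem_orthogonal_singleton_iff_inner_right.1 hv), mul_zero]

/-- The number of separated directions near a given one. -/
theorem near_card (hn : 2 ≤ n) : ∃ K : ℝ, 1 ≤ K ∧ ∀ (δ : ℝ), 0 < δ → δ < 1 → ∀ {ι : Type*}
    (e : ι → E n), (∀ i, ‖e i‖ = 1) → (∀ i j, i ≠ j → δ ≤ ‖e i - e j‖) →
    ∀ (w : E n), ‖w‖ = 1 → ∀ (J : Finset ι) (φ : ℝ), δ ≤ φ → (∀ j ∈ J, ‖w - e j‖ ≤ φ) →
      (J.card : ℝ) ≤ K * (φ / δ) ^ (n - 1) := by
  obtain ⟨K, hK1, hK⟩ := count2 hn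
  refine ⟨K, hK1, ?_⟩
  intro δ hδ hδ1 ι e he hsep w hw J φ hφ hJ
  obtain ⟨v, hv, hwv⟩ := perp hn w
  have hφ0 : 0 < φ := by linarith
  have h1 := hK δ hδ hδ1 e he hsep w v hw hv hwv J φ (max φ 3) hφ (hφ.trans (le_max_left _ _))
    (fun j hj => ⟨hJ j hj, (res_norm hw hv (e j)).trans (by
      rw [he j, mul_one]; exact le_max_right _ _)⟩)
  refine h1.trans ?_
  have h2 : min (φ / δ) (max φ 3 / δ) ≤ φ / δ := min_le_left _ _
  have h3 : 0 ≤ min (φ / δ) (max φ 3 / δ) := le_min (by positivity) (by positivity)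
  have h4 : n - 1 = (n - 2) + 1 := by omega
  rw [h4, pow_succ]
  calc K * (φ / δ) * min (φ / δ) (max φ 3 / δ) ^ (n - 2)
      ≤ K * (φ / δ) * (φ / δ) ^ (n - 2) := by gcongr
    _ = _ := by ring

/-- Greedy colouring. -/
theorem greedy {ι : Type} [Fintype ι] (R : ι → ι → Prop) (hs : ∀ i j, R i j → R j i) {m : ℕ}
    (h : ∀ (i : ι) (J : Finset ι), (∀ j ∈ J, R i j) → J.card ≤ m) :
    ∃ c : ι → Fin (m + 1), ∀ i j, i ≠ j → R i j → c i ≠ c j := by
  classical
  have key : ∀ s : Finset ι, ∃ c : ι → Fin (m + 1), ∀ i ∈ s, ∀ j ∈ s, i ≠ j → R i j → c i ≠ c j := by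
    intro s
    induction s using Finset.induction_on with
    | empty => exact ⟨fun _ => 0, by simp⟩
    | insert a s ha ih =>
      obtain ⟨c, hc⟩ := ih
      have h1 : ((s.filter fun j => R a j).image c).card < Fintype.card (Fin (m + 1)) := by
        rw [Fintype.card_fin]
        exact Nat.lt_succ_of_le (Finset.card_image_le.trans (h a _ fun j hj =>
          (Finset.mem_filter.1 hj).2))
      obtain ⟨k, hk⟩ : ∃ k, k ∉ (s.filter fun j => R a j).image c := by
        by_contra hcon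
        push Not at hcon
        have h2 : (s.filter fun j => R a j).image c = Finset.univ :=
          Finset.eq_univ_iff_forall.2 hcon
        rw [h2, Finset.card_univ] at h1
        exact lt_irrefl _ h1
      have hk' : ∀ j ∈ s, R a j → c j ≠ k := by
        intro j hj hR hck
        exact hk (Finset.mem_image.2 ⟨j, Finset.mem_filter.2 ⟨hj, hR⟩, hck⟩)
      refine ⟨Function.update c a k, ?_⟩
      intro i hi j hj hij hR
      rcases Finset.mem_insert.1 hi with rfl | hi'
      · rcases Finset.mem_insert.1 hj with rfl | hj'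
        · exact absurd rfl hij
        · rw [Function.update_self, Function.update_of_ne (Ne.symm hij)]
          exact (hk' j hj' hR).symm
      · rcases Finset.mem_insert.1 hj with rfl | hj'
        · rw [Function.update_self, Function.update_of_ne hij]
          exact hk' i hi' (hs _ _ hR)
        · have h3 : i ≠ a := fun h => ha (h ▸ hi')
          have h4 : j ≠ a := fun h => ha (h ▸ hj')
          rw [Function.update_of_ne h3, Function.update_of_ne h4]
          exact hc i hi' j hj' hij hR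
  obtain ⟨c, hc⟩ := key Finset.univ
  exact ⟨c, fun i j => hc i (Finset.mem_univ _) j (Finset.mem_univ _)⟩

/-- The inequality of the problem at the exponent `q`. -/
def KAt (n : ℕ) (q C : ℝ) : Prop := ∀ δ : ℝ, 0 < δ → δ < 1 → ∀ (ι : Type) [Fintype ι]
    (a e : ι → E n), (∀ i, ‖e i‖ = 1) → (∀ i j, i ≠ j → δ ≤ ‖e i - e j‖) →
    ∫⁻ x, mult (fun i => tube δ (a i) (e i)) x ^ q ≤
      ENNReal.ofReal (C * (δ ^ (n - 1) * (Fintype.card ι : ℝ) ^ (q - 1 / ((n : ℝ) - 1))))

/-- The inequality for families which are less separated than their width. -/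
theorem less_sep (hn : 3 ≤ n) : ∃ K : ℝ, 1 ≤ K ∧ ∀ (q C : ℝ), 1 + 1 / ((n : ℝ) - 1) ≤ q → 0 ≤ C →
    KAt n q C → ∀ (δ τ : ℝ), 0 < δ → δ ≤ τ → τ < 1 → ∀ (ι : Type) [Fintype ι] (a e : ι → E n),
    (∀ i, ‖e i‖ = 1) → (∀ i j, i ≠ j → δ ≤ ‖e i - e j‖) →
    ∫⁻ x, mult (fun i => tube τ (a i) (e i)) x ^ q ≤
      ENNReal.ofReal (C * K * (τ / δ) * (τ ^ (n - 1) *
        (Fintype.card ι : ℝ) ^ (q - 1 / ((n : ℝ) - 1)))) := by
  obtain ⟨K, hK1, hK⟩ := near_card (n := n) (by omega)
  have hnr : (3 : ℝ) ≤ n := by exact_mod_cast hn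
  have hd0 : (0 : ℝ) < (n : ℝ) - 1 := by linarith
  set p : ℝ := 1 / ((n : ℝ) - 1) with hp
  have hp0 : 0 < p := by positivity
  have hK0 : 0 < K := by linarith
  have h2K : 1 ≤ 2 * K := by linarith
  refine ⟨(2 * K) ^ p, Real.one_le_rpow h2K hp0.le, ?_⟩
  intro q C hq hC hKAt δ τ hδ hτ hτ1 ι _ a e he hsep
  classical
  have hτ0 : 0 < τ := by linarith
  have hδ1 : δ < 1 := by linarith
  have hq0 : 0 < q := by linarith
  have hq1 : 1 ≤ q := by linarith
  have hτδ : 1 ≤ τ / δ := by rwa [le_div_iff₀ hδ, one_mul]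
  set m : ℕ := ⌊K * (τ / δ) ^ (n - 1)⌋₊ with hm
  obtain ⟨κ, hκ⟩ := greedy (fun i j => ‖e i - e j‖ < τ)
    (fun i j h => by rwa [norm_sub_rev]) (m := m) (by
      intro i J hJ
      rw [hm]
      apply Nat.le_floor
      exact hK δ hδ hδ1 e he hsep (e i) (he i) J τ hτ fun j hj => (hJ j hj).le)
  set T : ι → Set (E n) := fun i => tube τ (a i) (e i) with hT
  have hTm : ∀ i, MeasurableSet (T i) := fun i => tube_meas _ _ _
  set θ : ℝ := 1 - p / q with hθ
  have hpq : p / q < 1 := by rw [div_lt_one hq0]; linarith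
  have hθ0 : 0 < θ := by rw [hθ]; linarith
  have hθ1 : θ ≤ 1 := by
    have : 0 ≤ p / q := by positivity
    rw [hθ]; linarith
  have hsum : ∀ x, mult T x = ∑ c : Fin (m + 1), pmult T κ c x := by
    intro x
    unfold mult pmult
    rw [Finset.sum_comm]
    refine Finset.sum_congr rfl fun i _ => ?_
    rw [Finset.sum_ite_eq, if_pos (Finset.mem_univ _)]
  set N : Fin (m + 1) → ℝ := fun c => (Fintype.card {i // κ i = c} : ℝ) with hN
  have hn0 : ∀ c, 0 ≤ N c := fun c => by positivity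
  have hpart : ∀ c : Fin (m + 1), ∫⁻ x, pmult T κ c x ^ q ≤
      ENNReal.ofReal (C * (τ ^ (n - 1) * N c ^ (q - p))) := by
    intro c
    simp only [pmult_eq]
    exact hKAt τ hτ0 hτ1 {i // κ i = c} (fun i => a i) (fun i => e i) (fun i => he i)
      (fun i j hij => by
        by_contra hcon
        rw [not_le] at hcon
        exact hκ i j (fun h => hij (Subtype.ext h)) hcon (i.2.trans j.2.symm))
  set B : ℝ := C * τ ^ (n - 1) with hB
  have hB0 : 0 ≤ B := by positivity
  have hpm : ∀ c : Fin (m + 1), Measurable fun x => pmult T κ c x := by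
    intro c
    simp only [pmult_eq]
    exact mult_meas fun i => tube_meas _ _ _
  have hnsum : ∑ c : Fin (m + 1), N c = Fintype.card ι := by
    have h1 := sum_card_parts κ
    rw [← h1]
    symm
    apply Finset.sum_subset (Finset.subset_univ _)
    intro c _ hc
    have : IsEmpty {i // κ i = c} := by
      constructor
      rintro ⟨i, hi⟩
      exact hc (Finset.mem_image.2 ⟨i, Finset.mem_univ _, hi⟩)
    rw [Fintype.card_eq_zero, Nat.cast_zero]
  have hS : ∑ c : Fin (m + 1), N c ^ θ ≤ ((m + 1 : ℕ) : ℝ) ^ (p / q) * (Fintype.card ι : ℝ) ^ θ := by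
    have h1 := sum_rpow_le (Finset.univ : Finset (Fin (m + 1))) hn0 hθ0 hθ1
    rw [hnsum, Finset.card_univ, Fintype.card_fin] at h1
    have h2 : 1 - θ = p / q := by rw [hθ]; ring
    rwa [h2] at h1
  have hroot : (∫⁻ x, mult T x ^ q) ^ (1 / q) ≤ ENNReal.ofReal (B ^ (1 / q) *
      (((m + 1 : ℕ) : ℝ) ^ (p / q) * (Fintype.card ι : ℝ) ^ θ)) := by
    simp only [hsum]
    refine (mink volume Finset.univ hpm hq1).trans ?_
    calc ∑ c : Fin (m + 1), (∫⁻ x, pmult T κ c x ^ q) ^ (1 / q)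
        ≤ ∑ c : Fin (m + 1), ENNReal.ofReal (B ^ (1 / q) * N c ^ θ) := by
          apply Finset.sum_le_sum
          intro c _
          refine (ENNReal.rpow_le_rpow (hpart c) (by positivity)).trans (le_of_eq ?_)
          rw [ENNReal.ofReal_rpow_of_nonneg (by positivity) (by positivity)]
          congr 1
          have h1 : C * (τ ^ (n - 1) * N c ^ (q - p)) = B * N c ^ (q - p) := by
            rw [hB]; ring
          rw [h1, Real.mul_rpow hB0 (Real.rpow_nonneg (hn0 c) _), ← Real.rpow_mul (hn0 c)]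
          congr 2
          rw [hθ]
          field_simp
      _ = ENNReal.ofReal (B ^ (1 / q) * ∑ c : Fin (m + 1), N c ^ θ) := by
          rw [← ENNReal.ofReal_sum_of_nonneg (fun c _ => mul_nonneg (Real.rpow_nonneg hB0 _)
            (Real.rpow_nonneg (hn0 c) _)), ← Finset.mul_sum]
      _ ≤ _ := by
          apply ENNReal.ofReal_le_ofReal
          gcongr
  have h5 : ∫⁻ x, mult T x ^ q = ((∫⁻ x, mult T x ^ q) ^ (1 / q)) ^ q := by
    rw [← ENNReal.rpow_mul, one_div, inv_mul_cancel₀ hq0.ne', ENNReal.rpow_one]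
  rw [h5]
  refine (ENNReal.rpow_le_rpow hroot hq0.le).trans ?_
  rw [ENNReal.ofReal_rpow_of_nonneg (by positivity) hq0.le]
  apply ENNReal.ofReal_le_ofReal
  have e1 : p / q * q = p := by field_simp
  have e2 : θ * q = q - p := by rw [hθ]; field_simp
  have e3 : (B ^ (1 / q)) ^ q = B := by
    rw [← Real.rpow_mul hB0, one_div, inv_mul_cancel₀ hq0.ne', Real.rpow_one]
  have e4 : (((m + 1 : ℕ) : ℝ) ^ (p / q)) ^ q = ((m + 1 : ℕ) : ℝ) ^ p := by
    rw [← Real.rpow_mul (Nat.cast_nonneg _), e1]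
  have e5 : ((Fintype.card ι : ℝ) ^ θ) ^ q = (Fintype.card ι : ℝ) ^ (q - p) := by
    rw [← Real.rpow_mul (Nat.cast_nonneg _), e2]
  rw [Real.mul_rpow (x := B ^ (1 / q)) (by positivity) (by positivity),
    Real.mul_rpow (x := ((m + 1 : ℕ) : ℝ) ^ (p / q)) (by positivity) (by positivity), e3, e4, e5]
  have h6 : ((m + 1 : ℕ) : ℝ) ^ p ≤ (2 * K) ^ p * (τ / δ) := by
    have h7 : ((m + 1 : ℕ) : ℝ) ≤ 2 * K * (τ / δ) ^ (n - 1) := by
      have h8 : (m : ℝ) ≤ K * (τ / δ) ^ (n - 1) := Nat.floor_le (by positivity)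
      have h9 : 1 ≤ (τ / δ) ^ (n - 1) := one_le_pow₀ hτδ
      push_cast
      nlinarith
    calc ((m + 1 : ℕ) : ℝ) ^ p ≤ (2 * K * (τ / δ) ^ (n - 1)) ^ p := by gcongr
      _ = (2 * K) ^ p * (τ / δ) := by
          rw [Real.mul_rpow (by positivity) (by positivity), ← Real.rpow_natCast,
            ← Real.rpow_mul (by positivity)]
          have h10 : ((n - 1 : ℕ) : ℝ) * p = 1 := by
            rw [Nat.cast_sub (by omega), Nat.cast_one, hp, mul_one_div, div_self hd0.ne']
          rw [h10, Real.rpow_one]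
  calc B * (((m + 1 : ℕ) : ℝ) ^ p * (Fintype.card ι : ℝ) ^ (q - p))
      ≤ B * ((2 * K) ^ p * (τ / δ) * (Fintype.card ι : ℝ) ^ (q - p)) := by gcongr
    _ = _ := by rw [hB]; ring

end Pool.Agent.R251.Smo
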