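import Pool.Agent.R251.Smo.Rand

set_option autoImplicit false

/-! Smoothed analysis of the Kakeya inequality for tubes. -/

open MeasureTheory Set Metric ProbabilityTheory
open scoped ENNReal NNReal

namespace Pool.Agent.R251.Smo
open Pool.Agent.Y254 (mult mult_meas mult_le mult_ne_top lint_mult tube tube_meas Cv Cv_pos vol_tube
  vol_near)
open Pool.Agent.Y254.EL (mink)
open Pool.Agent.TH705.RR (E)

variable {n : ℕ}

theorem alg1 (hn : 3 ≤ n) {N τ δ θ q q0 : ℝ} (hN : 0 < N) (hτ : 0 < τ) (hδ : 0 < δ)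
    (hq : q = (1 - θ) + q0 * θ) :
    (N * τ ^ (n - 1)) ^ (1 - θ) * (τ / δ * (τ ^ (n - 1) * N ^ (q0 - 1 / ((n : ℝ) - 1)))) ^ θ =
      N ^ (q - θ / ((n : ℝ) - 1)) * τ ^ (((n : ℝ) - 1) + θ) * δ ^ (-θ) := by
  have hnr : (3 : ℝ) ≤ n := by exact_mod_cast hn
  have hd0 : (0 : ℝ) < (n : ℝ) - 1 := by linarith
  have e0 : τ ^ (n - 1) = τ ^ ((n : ℝ) - 1) := by
    rw [← Real.rpow_natCast, Nat.cast_sub (by omega), Nat.cast_one]
  rw [e0, Real.mul_rpow hN.le (by positivity), Real.mul_rpow (by positivity) (by positivity),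
    Real.div_rpow hτ.le hδ.le, Real.mul_rpow (by positivity) (by positivity),
    ← Real.rpow_mul hτ.le, ← Real.rpow_mul hτ.le, ← Real.rpow_mul hN.le, Real.rpow_neg hδ.le]
  have e1 : N ^ (q - θ / ((n : ℝ) - 1)) = N ^ (1 - θ) * N ^ ((q0 - 1 / ((n : ℝ) - 1)) * θ) := by
    rw [← Real.rpow_add hN, hq]; congr 1; ring
  have e2 : τ ^ (((n : ℝ) - 1) + θ) = τ ^ (((n : ℝ) - 1) * (1 - θ)) * (τ ^ θ *
      τ ^ (((n : ℝ) - 1) * θ)) := by
    rw [← Real.rpow_add hτ, ← Real.rpow_add hτ]; congr 1; ring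
  rw [e1, e2]
  ring

theorem smoothed (hn : 3 ≤ n) : ∃ K : ℝ, 1 ≤ K ∧ ∀ (q0 C : ℝ), 1 + 1 / ((n : ℝ) - 1) ≤ q0 →
    0 ≤ C → KAt n q0 C → ∀ (q κ θ : ℝ), 1 + 1 / ((n : ℝ) - 1) ≤ q → q ≤ 2 → 0 ≤ θ → θ ≤ 1 →
    q = (1 - θ) + q0 * θ → 0 ≤ ((n : ℝ) - 1) * (q - 1) - θ →
    κ * (((n : ℝ) - 1) * (q - 1) - θ) ≤ ((n : ℝ) - 1) * (q - 1) - 1 →
    ∀ (A δ ρ : ℝ), 1 ≤ A → 0 < δ → δ < 1 → δ ≤ ρ → δ ^ κ ≤ ρ → 2 * ρ < 1 →
    ∀ (ι : Type) [Fintype ι] (a e : ι → E n),
    (∀ i, ‖e i‖ = 1) → (∀ i j, i ≠ j → δ ≤ ‖e i - e j‖) →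
    ∀ (Ω : Type) [MeasurableSpace Ω] (P : Measure Ω) [IsProbabilityMeasure P] (X : ι → Ω → E n),
    (∀ i, Measurable (X i)) → (∀ i j, i ≠ j → IndepFun (X i) (X j) P) →
    (∀ i, ∀ᵐ ω ∂P, ‖X i ω‖ ≤ ρ) →
    (∀ i (b u : E n), ‖u‖ = 1 → P {ω | X i ω ∈ tube δ b u} ≤
      ENNReal.ofReal (A * (δ / ρ) ^ (n - 1))) →
    ∫⁻ ω, (∫⁻ x, mult (fun i => tube δ (a i + X i ω) (e i)) x ^ q) ∂P ≤
      ENNReal.ofReal (K * (1 + C) * A ^ q *
        (δ ^ (n - 1) * (Fintype.card ι : ℝ) ^ (q - 1 / ((n : ℝ) - 1)))) := by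
  obtain ⟨K1, hK1, hfat⟩ := fat_int hn
  obtain ⟨K2, hK2, hcard⟩ := near_card (n := n) (by omega)
  have hCv := Cv_pos n
  have hnr : (3 : ℝ) ≤ n := by exact_mod_cast hn
  have hd0 : (0 : ℝ) < (n : ℝ) - 1 := by linarith
  have hp0 : 0 < 1 / ((n : ℝ) - 1) := by positivity
  set K3 : ℝ := K2 * 2 ^ (n - 1) with hK3
  have h2n : (1:ℝ) ≤ 2 ^ (n - 1) := one_le_pow₀ (by norm_num)
  have hK31 : 1 ≤ K3 := by rw [hK3]; nlinarith
  refine ⟨Cv n * 2 + 9 * (K1 * 2 ^ n * K3) + 1, by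
    have : (0:ℝ) ≤ 9 * (K1 * 2 ^ n * K3) := by positivity
    linarith, ?_⟩
  intro q0 C hq0 hC hKAt q κ θ hq hq2 hθ0 hθ1 hqθ hs hκ A δ ρ hA hδ hδ1 hδρ hρκ hρ ι _ a e he hsep
    Ω _ P _ X hX hind hXρ hXt
  classical
  have hρ0 : 0 < ρ := by linarith
  have hq1 : 1 ≤ q := by linarith
  have hq00 : 0 < q := by linarith
  rcases isEmpty_or_nonempty ι with hι | ⟨⟨i0⟩⟩
  · have h0 : ∀ ω x, mult (fun i => tube δ (a i + X i ω) (e i)) x ^ q = 0 := by
      intro ω x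
      unfold mult
      rw [Finset.univ_eq_empty, Finset.sum_empty, ENNReal.zero_rpow_of_pos hq00]
    simp only [h0, lintegral_zero]
    exact zero_le
  set N : ℝ := (Fintype.card ι : ℝ) with hN
  have hN1 : 1 ≤ N := by
    rw [hN]
    exact_mod_cast Fintype.card_pos_iff.2 ⟨i0⟩
  have hN0 : 0 < N := by linarith
  have hN2 : N ≤ K3 * δ ^ (-((n : ℝ) - 1)) := by
    have h1 := hcard δ hδ hδ1 e he hsep (e i0) (he i0) Finset.univ 2 (by linarith) (fun j _ => by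
      refine (norm_sub_le _ _).trans ?_
      rw [he, he]; norm_num)
    rw [Finset.card_univ] at h1
    refine h1.trans (le_of_eq ?_)
    rw [hK3, div_pow, Real.rpow_neg hδ.le]
    have e0 : δ ^ (n - 1) = δ ^ ((n : ℝ) - 1) := by
      rw [← Real.rpow_natCast, Nat.cast_sub (by omega), Nat.cast_one]
    rw [← e0]
    field_simp
  -- the sets in the probability space
  set S : E n → ι → Set Ω := fun x i => {ω | x ∈ tube δ (a i + X i ω) (e i)} with hS
  have hSpre : ∀ x i, S x i = X i ⁻¹' (tube δ (x - a i) (e i)) := by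
    intro x i
    ext ω
    exact mem_tube_iff
  have hSm : ∀ x i, MeasurableSet (S x i) := fun x i => by
    rw [hSpre]; exact hX i (tube_meas _ _ _)
  have hmS : ∀ ω x, mult (fun i => tube δ (a i + X i ω) (e i)) x = mult (S x) ω := by
    intro ω x
    unfold mult
    refine Finset.sum_congr rfl fun i _ => ?_
    rw [Set.indicator_apply, Set.indicator_apply]
    rfl
  have hind1 : ∀ ω x i, (S x i).indicator (1 : Ω → ℝ≥0∞) ω =
      (tube δ (a i) (e i)).indicator (1 : E n → ℝ≥0∞) (x - X i ω) := by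
    intro ω x i
    rw [Set.indicator_apply, Set.indicator_apply]
    by_cases h : x ∈ tube δ (a i + X i ω) (e i)
    · rw [if_pos (show ω ∈ S x i from h), if_pos (mem_tube_shift.1 h)]; rfl
    · rw [if_neg (show ω ∉ S x i from h), if_neg (fun h' => h (mem_tube_shift.2 h'))]
  have hjoint1 : ∀ i, Measurable fun p : E n × Ω =>
      (tube δ (a i) (e i)).indicator (1 : E n → ℝ≥0∞) (p.1 - X i p.2) := fun i =>
    (measurable_one.indicator (tube_meas _ _ _)).comp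
      (measurable_fst.sub ((hX i).comp measurable_snd))
  have hjoint : Measurable fun p : E n × Ω => mult (S p.1) p.2 := by
    unfold mult
    simp only [hind1]
    exact Finset.measurable_sum _ fun i _ => hjoint1 i
  -- the means
  set pr : ι → E n → ℝ≥0∞ := fun i x => P (S x i) with hpr
  have hpr_eq : ∀ i x, pr i x = ∫⁻ ω, (tube δ (a i) (e i)).indicator (1 : E n → ℝ≥0∞) (x - X i ω) ∂P := by
    intro i x
    rw [hpr]
    simp only
    rw [← lintegral_indicator_one (hSm x i)]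
    simp only [hind1]
  have hprm : ∀ i, Measurable (pr i) := by
    intro i
    have h1 : pr i = fun x => ∫⁻ ω, (tube δ (a i) (e i)).indicator (1 : E n → ℝ≥0∞) (x - X i ω) ∂P := by
      funext x; exact hpr_eq i x
    rw [h1]
    exact (hjoint1 i).lintegral_prod_right'
  set m : E n → ℝ≥0∞ := fun x => ∑ i, pr i x with hm
  have hmm : Measurable m := Finset.measurable_sum _ fun i _ => hprm i
  have hswap : ∫⁻ ω, (∫⁻ x, mult (fun i => tube δ (a i + X i ω) (e i)) x ^ q) ∂P =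
      ∫⁻ x, ∫⁻ ω, mult (S x) ω ^ q ∂P := by
    simp only [hmS]
    exact lintegral_lintegral_swap (f := fun ω x => mult (S x) ω ^ q)
      ((hjoint.comp measurable_swap).pow_const q).aemeasurable
  have hmom : ∀ x, ∫⁻ ω, mult (S x) ω ^ q ∂P ≤ m x + m x ^ q := by
    intro x
    refine moment (hSm x) ?_ hq1 hq2
    intro i j hij
    rw [hSpre, hSpre]
    exact ((hind i j hij).measure_inter_preimage_eq_mul _ _ (tube_meas _ _ _)
      (tube_meas _ _ _)).le
  have hmint : ∫⁻ x, m x ≤ ENNReal.ofReal (Cv n * 2 * (δ ^ (n - 1) * N)) := by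
    rw [hm, lintegral_finsetSum _ fun i _ => hprm i]
    have h1 : ∀ i, ∫⁻ x, pr i x ≤ ENNReal.ofReal (Cv n * 2 * δ ^ (n - 1)) := by
      intro i
      simp only [hpr_eq]
      rw [lintegral_lintegral_swap (hjoint1 i).aemeasurable]
      have h2 : ∀ ω, ∫⁻ x, (tube δ (a i) (e i)).indicator (1 : E n → ℝ≥0∞) (x - X i ω) ≤
          ENNReal.ofReal (Cv n * 2 * δ ^ (n - 1)) := by
        intro ω
        rw [lintegral_sub_right_eq_self
          (fun x => (tube δ (a i) (e i)).indicator (1 : E n → ℝ≥0∞) x) (X i ω),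
          lintegral_indicator_one (tube_meas _ _ _)]
        exact vol_tube (by omega) (he i) hδ hδ1
      calc ∫⁻ ω, (∫⁻ x, (tube δ (a i) (e i)).indicator (1 : E n → ℝ≥0∞) (x - X i ω)) ∂P
          ≤ ∫⁻ _ω, ENNReal.ofReal (Cv n * 2 * δ ^ (n - 1)) ∂P := lintegral_mono h2
        _ = _ := by rw [lintegral_const, measure_univ, mul_one]
    calc ∑ i, ∫⁻ x, pr i x ≤ ∑ _i : ι, ENNReal.ofReal (Cv n * 2 * δ ^ (n - 1)) :=
          Finset.sum_le_sum fun i _ => h1 i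
      _ = _ := by
          rw [Finset.sum_const, Finset.card_univ, nsmul_eq_mul, ← ENNReal.ofReal_natCast,
            ← ENNReal.ofReal_mul (by positivity)]
          congr 1
          rw [hN]; ring
  -- comparison with fat tubes
  set F : Fin 3 → E n → ℝ≥0∞ := fun k =>
    mult (fun i => tube (2 * ρ) (a i + (((k:ℕ):ℝ) - 1) • e i) (e i)) with hF
  have hFm : ∀ k, Measurable (F k) := fun k => mult_meas fun i => tube_meas _ _ _
  set α : ℝ := A * (δ / ρ) ^ (n - 1) with hα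
  have hα0 : 0 ≤ α := by positivity
  have hmF : ∀ x, m x ≤ ENNReal.ofReal α * ∑ k, F k x := by
    intro x
    have h1 : ∀ i, pr i x ≤ ENNReal.ofReal α * ∑ k : Fin 3,
        (tube (2 * ρ) (a i + (((k:ℕ):ℝ) - 1) • e i) (e i)).indicator (1 : E n → ℝ≥0∞) x := by
      intro i
      by_cases h : ∃ ω ∈ S x i, ‖X i ω‖ ≤ ρ
      · obtain ⟨ω, hω1, hω2⟩ := h
        obtain ⟨k, hk⟩ := fat_mem hδ hδρ (by linarith) (he i) hω2 hω1
        have h2 : pr i x ≤ ENNReal.ofReal α := by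
          rw [hpr]
          simp only
          rw [hSpre]
          exact hXt i _ _ (he i)
        calc pr i x ≤ ENNReal.ofReal α * 1 := by rw [mul_one]; exact h2
          _ ≤ _ := by
              gcongr
              calc (1 : ℝ≥0∞) = (tube (2 * ρ) (a i + (((k:ℕ):ℝ) - 1) • e i) (e i)).indicator
                    (1 : E n → ℝ≥0∞) x := by rw [indicator_of_mem hk]; rfl
                _ ≤ _ := Finset.single_le_sum (f := fun k : Fin 3 =>
                    (tube (2 * ρ) (a i + (((k:ℕ):ℝ) - 1) • e i) (e i)).indicator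
                    (1 : E n → ℝ≥0∞) x) (fun _ _ => zero_le) (Finset.mem_univ k)
      · push Not at h
        have h2 : pr i x = 0 := by
          rw [hpr]
          refine measure_mono_null ?_ (hXρ i)
          intro ω hω hle
          exact absurd hle (not_le.2 (h ω hω))
        rw [h2]; exact zero_le
    calc m x ≤ ∑ i, ENNReal.ofReal α * ∑ k : Fin 3,
        (tube (2 * ρ) (a i + (((k:ℕ):ℝ) - 1) • e i) (e i)).indicator (1 : E n → ℝ≥0∞) x :=
          Finset.sum_le_sum fun i _ => h1 i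
      _ = _ := by
          rw [← Finset.mul_sum, Finset.sum_comm]
          rfl
  set β0 : ℝ := q0 - 1 / ((n : ℝ) - 1) with hβ0
  set B : ℝ := (K1 * (1 + C)) * (N * (2 * ρ) ^ (n - 1)) ^ (1 - θ) *
        ((2 * ρ) / δ * ((2 * ρ) ^ (n - 1) * N ^ β0)) ^ θ with hB
  have hK10 : 0 < K1 := by linarith
  have hB0 : 0 ≤ B := by positivity
  have hFint : ∀ k, ∫⁻ x, F k x ^ q ≤ ENNReal.ofReal B := by
    intro k
    exact hfat q0 C hq0 hC hKAt δ (2 * ρ) q θ hδ (by linarith) hρ hθ0 hθ1 hqθ ι _ e he hsep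
  have hFsum : ∫⁻ x, (∑ k, F k x) ^ q ≤ ENNReal.ofReal (9 * B) := by
    have h1 := mink (volume : Measure (E n)) Finset.univ hFm hq1
    have h2 : ∑ k, (∫⁻ x, F k x ^ q) ^ (1 / q) ≤ 3 * ENNReal.ofReal B ^ (1 / q) := by
      calc ∑ k, (∫⁻ x, F k x ^ q) ^ (1 / q) ≤ ∑ _k : Fin 3, ENNReal.ofReal B ^ (1 / q) :=
            Finset.sum_le_sum fun k _ => ENNReal.rpow_le_rpow (hFint k) (by positivity)
        _ = _ := by
            rw [Finset.sum_const, Finset.card_univ, Fintype.card_fin, nsmul_eq_mul]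
            norm_num
    have h3 := ENNReal.rpow_le_rpow (h1.trans h2) hq00.le
    rw [← ENNReal.rpow_mul, one_div, inv_mul_cancel₀ hq00.ne', ENNReal.rpow_one,
      ENNReal.mul_rpow_of_nonneg _ _ hq00.le, ← ENNReal.rpow_mul,
      inv_mul_cancel₀ hq00.ne', ENNReal.rpow_one] at h3
    refine h3.trans ?_
    rw [ENNReal.ofReal_mul (p := 9) (by norm_num)]
    gcongr
    calc (3 : ℝ≥0∞) ^ q ≤ 3 ^ (2:ℝ) := ENNReal.rpow_le_rpow_of_exponent_le (by norm_num) hq2
      _ = ENNReal.ofReal 9 := by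
          rw [ENNReal.rpow_ofNat, ENNReal.ofReal_ofNat]
          norm_num
  have hmq : ∫⁻ x, m x ^ q ≤ ENNReal.ofReal (α ^ q * (9 * B)) := by
    calc ∫⁻ x, m x ^ q ≤ ∫⁻ x, (ENNReal.ofReal α * ∑ k, F k x) ^ q :=
          lintegral_mono fun x => ENNReal.rpow_le_rpow (hmF x) hq00.le
      _ = ENNReal.ofReal (α ^ q) * ∫⁻ x, (∑ k, F k x) ^ q := by
          rw [← lintegral_const_mul _ ((Finset.measurable_sum _ fun k _ => hFm k).pow_const q)]
          apply lintegral_congr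
          intro x
          rw [ENNReal.mul_rpow_of_nonneg _ _ hq00.le, ENNReal.ofReal_rpow_of_nonneg hα0 hq00.le]
      _ ≤ ENNReal.ofReal (α ^ q) * ENNReal.ofReal (9 * B) := by gcongr
      _ = _ := (ENNReal.ofReal_mul (by positivity)).symm
  -- the numbers
  set R : ℝ := δ ^ (n - 1) * N ^ (q - 1 / ((n : ℝ) - 1)) with hR
  have hR0 : 0 < R := by positivity
  have e0 : ∀ y : ℝ, y ^ (n - 1) = y ^ ((n : ℝ) - 1) := by
    intro y
    rw [← Real.rpow_natCast, Nat.cast_sub (by omega), Nat.cast_one]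
  have hnum : α ^ q * (9 * B) ≤ 9 * (K1 * 2 ^ n * K3) * (1 + C) * A ^ q * R := by
    have h1 : B = (K1 * (1 + C)) * (N ^ (q - θ / ((n : ℝ) - 1)) *
        (2 * ρ) ^ (((n : ℝ) - 1) + θ) * δ ^ (-θ)) := by
      rw [← alg1 hn hN0 (by positivity) hδ hqθ, hB]; ring
    have h2 : (2 * ρ) ^ (((n : ℝ) - 1) + θ) ≤ 2 ^ n * ρ ^ (((n : ℝ) - 1) + θ) := by
      rw [Real.mul_rpow (by norm_num) hρ0.le]
      gcongr
      rw [← Real.rpow_natCast]
      apply Real.rpow_le_rpow_of_exponent_le (by norm_num)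
      linarith
    have h3 : α ^ q = A ^ q * (δ / ρ) ^ (((n : ℝ) - 1) * q) := by
      rw [hα, Real.mul_rpow (by linarith) (by positivity), e0, ← Real.rpow_mul (by positivity)]
    have h4 := num hd0 hδ hδ1 hN1 (by linarith : 0 < K3) hN2 hθ1 hs hκ hρκ
    have h5 : K3 ^ ((1 - θ) / ((n : ℝ) - 1)) ≤ K3 := by
      calc K3 ^ ((1 - θ) / ((n : ℝ) - 1)) ≤ K3 ^ (1:ℝ) := by
            apply Real.rpow_le_rpow_of_exponent_le hK31
            rw [div_le_one hd0]
            linarith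
        _ = K3 := Real.rpow_one _
    have hA0 : 0 < A := by linarith
    calc α ^ q * (9 * B)
        ≤ (A ^ q * (δ / ρ) ^ (((n : ℝ) - 1) * q)) * (9 * ((K1 * (1 + C)) *
          (N ^ (q - θ / ((n : ℝ) - 1)) * (2 ^ n * ρ ^ (((n : ℝ) - 1) + θ)) * δ ^ (-θ)))) := by
          rw [h1, h3]
          gcongr
      _ = (9 * K1 * (1 + C) * 2 ^ n * A ^ q) * ((δ / ρ) ^ (((n : ℝ) - 1) * q) *
          (N ^ (q - θ / ((n : ℝ) - 1)) * ρ ^ (((n : ℝ) - 1) + θ) * δ ^ (-θ))) := by ring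
      _ ≤ (9 * K1 * (1 + C) * 2 ^ n * A ^ q) * (K3 ^ ((1 - θ) / ((n : ℝ) - 1)) *
          (δ ^ ((n : ℝ) - 1) * N ^ (q - 1 / ((n : ℝ) - 1)))) := by gcongr
      _ ≤ (9 * K1 * (1 + C) * 2 ^ n * A ^ q) * (K3 *
          (δ ^ ((n : ℝ) - 1) * N ^ (q - 1 / ((n : ℝ) - 1)))) := by gcongr
      _ = _ := by rw [hR, e0]; ring
  have hlin : Cv n * 2 * (δ ^ (n - 1) * N) ≤ Cv n * 2 * R := by
    rw [hR]
    have h1 : N ≤ N ^ (q - 1 / ((n : ℝ) - 1)) := by
      calc N = N ^ (1:ℝ) := (Real.rpow_one _).symm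
        _ ≤ _ := Real.rpow_le_rpow_of_exponent_le hN1 (by linarith)
    gcongr
  rw [hswap]
  calc ∫⁻ x, ∫⁻ ω, mult (S x) ω ^ q ∂P ≤ ∫⁻ x, (m x + m x ^ q) := lintegral_mono hmom
    _ = (∫⁻ x, m x) + ∫⁻ x, m x ^ q := lintegral_add_left hmm _
    _ ≤ ENNReal.ofReal (Cv n * 2 * (δ ^ (n - 1) * N)) + ENNReal.ofReal (α ^ q * (9 * B)) :=
        add_le_add hmint hmq
    _ = ENNReal.ofReal (Cv n * 2 * (δ ^ (n - 1) * N) + α ^ q * (9 * B)) :=
        (ENNReal.ofReal_add (by positivity) (by positivity)).symm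
    _ ≤ _ := by
        apply ENNReal.ofReal_le_ofReal
        have hAq : 1 ≤ A ^ q := Real.one_le_rpow hA hq00.le
        have h6 : Cv n * 2 * R ≤ (Cv n * 2 + 1) * (1 + C) * A ^ q * R := by
          have h7 : 1 ≤ (1 + C) * A ^ q := by
            calc (1:ℝ) = 1 * 1 := (one_mul _).symm
              _ ≤ (1 + C) * A ^ q := by
                  apply mul_le_mul _ hAq zero_le_one (by linarith)
                  linarith
          have h8 : Cv n * 2 ≤ (Cv n * 2 + 1) * ((1 + C) * A ^ q) := by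
            calc Cv n * 2 ≤ (Cv n * 2 + 1) * 1 := by linarith
              _ ≤ _ := by gcongr
          calc Cv n * 2 * R ≤ (Cv n * 2 + 1) * ((1 + C) * A ^ q) * R := by gcongr
            _ = _ := by ring
        calc Cv n * 2 * (δ ^ (n - 1) * N) + α ^ q * (9 * B)
            ≤ (Cv n * 2 + 1) * (1 + C) * A ^ q * R +
              9 * (K1 * 2 ^ n * K3) * (1 + C) * A ^ q * R := by linarith
          _ = _ := by ring

end Pool.Agent.R251.Smo
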