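import Pool.Agent.R251.Smo.Fat

set_option autoImplicit false

/-! Independent random translations of tubes. -/

open MeasureTheory Set Metric ProbabilityTheory
open scoped ENNReal NNReal

namespace Pool.Agent.R251.Smo
open Pool.Agent.Y254 (mult mult_meas mult_le mult_ne_top lint_mult tube tube_meas Cv Cv_pos vol_tube
  vol_near)
open Pool.Agent.Y254.EL (mink)
open Pool.Agent.TH705.RR (E)

variable {n : ℕ}

/-- powers and interpolation -/
theorem interp {X : Type*} [MeasurableSpace X] (μ : Measure X) {f : X → ℝ≥0∞} (hf : Measurable f)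
    {q q0 θ : ℝ} (hθ0 : 0 ≤ θ) (hθ1 : θ ≤ 1) (hq0 : 0 ≤ q0) (hq : q = (1 - θ) + q0 * θ) :
    ∫⁻ x, f x ^ q ∂μ ≤ (∫⁻ x, f x ∂μ) ^ (1 - θ) * (∫⁻ x, f x ^ q0 ∂μ) ^ θ := by
  have h1 := ENNReal.lintegral_mul_norm_pow_le (μ := μ) hf.aemeasurable
    (hf.pow_const q0).aemeasurable (sub_nonneg.2 hθ1) hθ0 (by ring)
  refine le_trans (le_of_eq ?_) h1
  apply lintegral_congr
  intro x
  rw [← ENNReal.rpow_mul, ← ENNReal.rpow_add_of_nonneg _ _ (sub_nonneg.2 hθ1) (by positivity), hq]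

/-- Moments of sums of pairwise independent indicator functions. -/
theorem moment {Ω : Type*} [MeasurableSpace Ω] {P : Measure Ω} {ι : Type*} [Fintype ι]
    {S : ι → Set Ω} (hS : ∀ i, MeasurableSet (S i))
    (hind : ∀ i j, i ≠ j → P (S i ∩ S j) ≤ P (S i) * P (S j)) {q : ℝ} (hq1 : 1 ≤ q) (hq2 : q ≤ 2) :
    ∫⁻ ω, mult S ω ^ q ∂P ≤ (∑ i, P (S i)) + (∑ i, P (S i)) ^ q := by
  classical
  set m : ℝ≥0∞ := ∑ i, P (S i) with hm
  have h1 : ∫⁻ ω, mult S ω ∂P = m := lint_mult P hS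
  have h2 : ∫⁻ ω, mult S ω ^ (2:ℝ) ∂P ≤ m + m ^ (2:ℝ) := by
    have h3 : ∀ ω, mult S ω ^ (2:ℝ) = ∑ i, ∑ j, (S i ∩ S j).indicator (1 : Ω → ℝ≥0∞) ω := by
      intro ω
      rw [ENNReal.rpow_ofNat, sq]
      unfold mult
      rw [Finset.sum_mul_sum]
      refine Finset.sum_congr rfl fun i _ => Finset.sum_congr rfl fun j _ => ?_
      rw [Set.inter_indicator_one]
      rfl
    have h4 : ∫⁻ ω, mult S ω ^ (2:ℝ) ∂P = ∑ i, ∑ j, P (S i ∩ S j) := by
      simp_rw [h3]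
      rw [lintegral_finsetSum _ fun i _ => Finset.measurable_sum _ fun j _ =>
        measurable_one.indicator ((hS i).inter (hS j))]
      refine Finset.sum_congr rfl fun i _ => ?_
      rw [lintegral_finsetSum _ fun j _ => measurable_one.indicator ((hS i).inter (hS j))]
      refine Finset.sum_congr rfl fun j _ => ?_
      exact lintegral_indicator_one ((hS i).inter (hS j))
    rw [h4]
    calc ∑ i, ∑ j, P (S i ∩ S j)
        ≤ ∑ i, ∑ j, ((if i = j then P (S i) else 0) + P (S i) * P (S j)) := by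
          apply Finset.sum_le_sum
          intro i _
          apply Finset.sum_le_sum
          intro j _
          by_cases hij : i = j
          · subst hij
            rw [if_pos rfl, inter_self]
            exact le_self_add
          · rw [if_neg hij, zero_add]
            exact hind i j hij
      _ = m + m ^ (2:ℝ) := by
          simp only [Finset.sum_add_distrib, Finset.sum_ite_eq, Finset.mem_univ, if_true]
          rw [ENNReal.rpow_ofNat, sq, hm, Finset.sum_mul_sum]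
  have h5 := interp P (mult_meas hS) (q := q) (q0 := 2) (θ := q - 1) (by linarith) (by linarith)
    (by norm_num) (by ring)
  refine h5.trans ?_
  rw [h1]
  have e1 : 1 - (q - 1) = 2 - q := by ring
  rw [e1]
  calc m ^ (2 - q) * (∫⁻ ω, mult S ω ^ (2:ℝ) ∂P) ^ (q - 1)
      ≤ m ^ (2 - q) * (m + m ^ (2:ℝ)) ^ (q - 1) := by
        gcongr
    _ ≤ m ^ (2 - q) * (m ^ (q - 1) + (m ^ (2:ℝ)) ^ (q - 1)) := by
        gcongr
        exact ENNReal.rpow_add_le_add_rpow _ _ (by linarith) (by linarith)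
    _ = m + m ^ q := by
        rw [mul_add, ← ENNReal.rpow_add_of_nonneg _ _ (by linarith) (by linarith),
          ← ENNReal.rpow_mul, ← ENNReal.rpow_add_of_nonneg _ _ (by linarith) (by linarith)]
        have e2 : 2 - q + (q - 1) = 1 := by ring
        have e3 : 2 - q + 2 * (q - 1) = q := by ring
        rw [e2, e3, ENNReal.rpow_one]

theorem mem_tube_iff {δ : ℝ} {a v e x : E n} :
    x ∈ tube δ (a + v) e ↔ v ∈ tube δ (x - a) e := by
  unfold tube
  simp only [Set.mem_ofPred_eq]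
  have h1 : v - (x - a) = -(x - (a + v)) := by abel
  rw [h1, inner_neg_left, abs_neg, neg_smul, sub_neg_eq_add]
  have h2 : -(x - (a + v)) + (inner ℝ (x - (a + v)) e : ℝ) • e =
      -((x - (a + v)) - (inner ℝ (x - (a + v)) e : ℝ) • e) := by abel
  rw [h2, norm_neg]

theorem mem_tube_shift {δ : ℝ} {a v e x : E n} : x ∈ tube δ (a + v) e ↔ x - v ∈ tube δ a e := by
  unfold tube
  simp only [Set.mem_ofPred_eq]
  have h1 : x - (a + v) = x - v - a := by abel
  rw [h1]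

/-- a translated tube is contained in three fat tubes -/
theorem fat_mem {δ ρ : ℝ} (hδ : 0 < δ) (hδρ : δ ≤ ρ) (hρ : ρ ≤ 1) {a v e x : E n} (he : ‖e‖ = 1)
    (hv : ‖v‖ ≤ ρ) (hx : x ∈ tube δ (a + v) e) :
    ∃ k : Fin 3, x ∈ tube (2 * ρ) (a + (((k:ℕ):ℝ) - 1) • e) e := by
  have hee : (inner ℝ e e : ℝ) = 1 := by rw [real_inner_self_eq_norm_sq, he]; norm_num
  obtain ⟨h1, h2⟩ := hx
  set s : ℝ := inner ℝ (x - a) e with hs
  have hve : |(inner ℝ v e : ℝ)| ≤ ρ := by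
    refine (abs_real_inner_le_norm _ _).trans ?_
    rw [he, mul_one]; exact hv
  have h3 : (inner ℝ (x - (a + v)) e : ℝ) = s - inner ℝ v e := by
    rw [hs, ← inner_sub_left]; congr 1; abel
  rw [h3] at h1 h2
  have hperp : ‖(x - a) - s • e‖ ≤ 2 * ρ := by
    have h4 : (x - a) - s • e = ((x - (a + v)) - (s - inner ℝ v e) • e) +
        (v - (inner ℝ v e : ℝ) • e) := by module
    have h5 : ‖v - (inner ℝ v e : ℝ) • e‖ ≤ ‖v‖ := by
      have h6 : ‖v - (inner ℝ v e : ℝ) • e‖ ^ 2 ≤ ‖v‖ ^ 2 := by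
        rw [norm_sub_sq_real, inner_smul_right, norm_smul, he, mul_one, Real.norm_eq_abs, sq_abs]
        nlinarith [sq_nonneg (inner ℝ v e : ℝ)]
      exact (abs_le_of_sq_le_sq' h6 (norm_nonneg _)).2
    rw [h4]
    refine (norm_add_le _ _).trans ?_
    linarith
  have hs1 := abs_le.1 h1
  have hs2 := abs_le.1 hve
  have key : ∀ r : ℝ, |s - r| ≤ 1 / 2 → x ∈ tube (2 * ρ) (a + r • e) e := by
    intro r hr
    have h6 : (inner ℝ (x - (a + r • e)) e : ℝ) = s - r := by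
      rw [← sub_sub, inner_sub_left, inner_smul_left, hee]
      simp [hs]
    refine ⟨by rw [h6]; exact hr, ?_⟩
    rw [h6]
    have h7 : x - (a + r • e) - (s - r) • e = (x - a) - s • e := by module
    rw [h7]; exact hperp
  rcases le_or_gt s (-(1 / 2)) with h | h
  · refine ⟨0, ?_⟩
    have := key (-1) (by rw [abs_le]; constructor <;> linarith)
    simpa using this
  rcases le_or_gt s (1 / 2) with h' | h'
  · refine ⟨1, ?_⟩
    have := key 0 (by rw [abs_le]; constructor <;> linarith)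
    simpa using this
  · refine ⟨2, ?_⟩
    have := key 1 (by rw [abs_le]; constructor <;> linarith)
    have e : (((2 : Fin 3) : ℕ) : ℝ) - 1 = 1 := by norm_num
    rw [e]
    exact this

/-- Integrals of the multiplicity of fat tubes -/
theorem fat_int (hn : 3 ≤ n) : ∃ K : ℝ, 1 ≤ K ∧ ∀ (q0 C : ℝ), 1 + 1 / ((n : ℝ) - 1) ≤ q0 →
    0 ≤ C → KAt n q0 C → ∀ (δ τ q θ : ℝ), 0 < δ → δ ≤ τ → τ < 1 → 0 ≤ θ → θ ≤ 1 →
    q = (1 - θ) + q0 * θ → ∀ (ι : Type) [Fintype ι] (a e : ι → E n),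
    (∀ i, ‖e i‖ = 1) → (∀ i j, i ≠ j → δ ≤ ‖e i - e j‖) →
    ∫⁻ x, mult (fun i => tube τ (a i) (e i)) x ^ q ≤
      ENNReal.ofReal ((K * (1 + C)) * ((Fintype.card ι : ℝ) * τ ^ (n - 1)) ^ (1 - θ) *
        (τ / δ * (τ ^ (n - 1) * (Fintype.card ι : ℝ) ^ (q0 - 1 / ((n : ℝ) - 1)))) ^ θ) := by
  obtain ⟨K, hK1, hK⟩ := less_sep hn
  have hCv := Cv_pos n
  refine ⟨(1 + Cv n * 2) * K, by nlinarith, ?_⟩
  intro q0 C hq0 hC hKAt δ τ q θ hδ hδτ hτ1 hθ0 hθ1 hq ι _ a e he hsep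
  have hτ0 : 0 < τ := by linarith
  have hnr : (3 : ℝ) ≤ n := by exact_mod_cast hn
  have hd0 : (0 : ℝ) < (n : ℝ) - 1 := by linarith
  have hp0 : 0 < 1 / ((n : ℝ) - 1) := by positivity
  have hm : Measurable (mult (fun i => tube τ (a i) (e i))) := mult_meas fun i => tube_meas _ _ _
  refine (interp volume hm hθ0 hθ1 (by linarith) hq).trans ?_
  have h1 : ∫⁻ x, mult (fun i => tube τ (a i) (e i)) x ≤
      ENNReal.ofReal (Cv n * 2 * ((Fintype.card ι : ℝ) * τ ^ (n - 1))) := by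
    rw [lint_mult _ fun i => tube_meas _ _ _]
    calc ∑ i, volume (tube τ (a i) (e i)) ≤ ∑ _i : ι, ENNReal.ofReal (Cv n * 2 * τ ^ (n - 1)) :=
          Finset.sum_le_sum fun i _ => vol_tube (by omega) (he i) hτ0 hτ1
      _ = _ := by
          rw [Finset.sum_const, Finset.card_univ, nsmul_eq_mul, ← ENNReal.ofReal_natCast,
            ← ENNReal.ofReal_mul (by positivity)]
          congr 1
          ring
  have h2 := hK q0 C hq0 hC hKAt δ τ hδ hδτ hτ1 ι a e he hsep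
  calc (∫⁻ x, mult (fun i => tube τ (a i) (e i)) x) ^ (1 - θ) *
        (∫⁻ x, mult (fun i => tube τ (a i) (e i)) x ^ q0) ^ θ
      ≤ ENNReal.ofReal (Cv n * 2 * ((Fintype.card ι : ℝ) * τ ^ (n - 1))) ^ (1 - θ) *
        ENNReal.ofReal (C * K * (τ / δ) * (τ ^ (n - 1) *
        (Fintype.card ι : ℝ) ^ (q0 - 1 / ((n : ℝ) - 1)))) ^ θ := by
        gcongr
    _ ≤ _ := by
        rw [ENNReal.ofReal_rpow_of_nonneg (by positivity) (by linarith),
          ENNReal.ofReal_rpow_of_nonneg (by positivity) hθ0, ← ENNReal.ofReal_mul (by positivity)]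
        apply ENNReal.ofReal_le_ofReal
        set U : ℝ := (Fintype.card ι : ℝ) * τ ^ (n - 1) with hU
        set W : ℝ := τ / δ * (τ ^ (n - 1) * (Fintype.card ι : ℝ) ^ (q0 - 1 / ((n : ℝ) - 1))) with hW
        have hU0 : 0 ≤ U := by positivity
        have hW0 : 0 ≤ W := by positivity
        have e1 : C * K * (τ / δ) * (τ ^ (n - 1) *
            (Fintype.card ι : ℝ) ^ (q0 - 1 / ((n : ℝ) - 1))) = (C * K) * W := by
          rw [hW]; ring
        rw [e1, Real.mul_rpow (by positivity) hU0, Real.mul_rpow (by positivity) hW0]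
        have h3 : (Cv n * 2) ^ (1 - θ) ≤ 1 + Cv n * 2 := by
          calc (Cv n * 2) ^ (1 - θ) ≤ (1 + Cv n * 2) ^ (1 - θ) := by
                gcongr
                linarith
            _ ≤ (1 + Cv n * 2) ^ (1:ℝ) := by
                apply Real.rpow_le_rpow_of_exponent_le <;> linarith
            _ = _ := Real.rpow_one _
        have h4 : (C * K) ^ θ ≤ K * (1 + C) := by
          have h5 : 1 ≤ K * (1 + C) := by nlinarith
          calc (C * K) ^ θ ≤ (K * (1 + C)) ^ θ :=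
                Real.rpow_le_rpow (by positivity) (by nlinarith) hθ0
            _ ≤ (K * (1 + C)) ^ (1:ℝ) := Real.rpow_le_rpow_of_exponent_le h5 hθ1
            _ = _ := Real.rpow_one _
        calc (Cv n * 2) ^ (1 - θ) * U ^ (1 - θ) * ((C * K) ^ θ * W ^ θ)
            ≤ (1 + Cv n * 2) * U ^ (1 - θ) * ((K * (1 + C)) * W ^ θ) := by gcongr
          _ = _ := by ring

theorem num {d δ ρ N θ q κ K2 : ℝ} (hd : 0 < d) (hδ : 0 < δ) (hδ1 : δ < 1)
    (hN : 1 ≤ N) (hK2 : 0 < K2) (hN2 : N ≤ K2 * δ ^ (-d)) (hθ1 : θ ≤ 1)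
    (hs : 0 ≤ d * (q - 1) - θ) (hκ : κ * (d * (q - 1) - θ) ≤ d * (q - 1) - 1) (hρκ : δ ^ κ ≤ ρ) :
    (δ / ρ) ^ (d * q) * (N ^ (q - θ / d) * ρ ^ (d + θ) * δ ^ (-θ)) ≤
      K2 ^ ((1 - θ) / d) * (δ ^ d * N ^ (q - 1 / d)) := by
  have hN0 : 0 < N := by linarith
  have hρ : 0 < ρ := lt_of_lt_of_le (by positivity) hρκ
  have h1 : N ^ (q - θ / d) = N ^ (q - 1 / d) * N ^ ((1 - θ) / d) := by
    rw [← Real.rpow_add hN0]; congr 1; ring
  have h2 : N ^ ((1 - θ) / d) ≤ K2 ^ ((1 - θ) / d) * δ ^ (-(1 - θ)) := by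
    calc N ^ ((1 - θ) / d) ≤ (K2 * δ ^ (-d)) ^ ((1 - θ) / d) := by
          apply Real.rpow_le_rpow hN0.le hN2
          apply div_nonneg (by linarith) hd.le
      _ = _ := by
          rw [Real.mul_rpow hK2.le (by positivity), ← Real.rpow_mul hδ.le]
          congr 2
          field_simp
  have h3 : (δ / ρ) ^ (d * q) = δ ^ (d * q) * ρ ^ (-(d * q)) := by
    rw [Real.div_rpow hδ.le hρ.le, Real.rpow_neg hρ.le]; rfl
  have h4 : ρ ^ (-(d * q)) * ρ ^ (d + θ) = ρ ^ (-(d * (q - 1) - θ)) := by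
    rw [← Real.rpow_add hρ]; congr 1; ring
  have h5 : ρ ^ (-(d * (q - 1) - θ)) ≤ δ ^ (-(κ * (d * (q - 1) - θ))) := by
    calc ρ ^ (-(d * (q - 1) - θ)) ≤ (δ ^ κ) ^ (-(d * (q - 1) - θ)) :=
          Real.rpow_le_rpow_of_nonpos (by positivity) hρκ (by linarith)
      _ = _ := by
          rw [← Real.rpow_mul hδ.le]
          congr 1
          ring
  calc (δ / ρ) ^ (d * q) * (N ^ (q - θ / d) * ρ ^ (d + θ) * δ ^ (-θ))
      = (ρ ^ (-(d * q)) * ρ ^ (d + θ)) * (N ^ ((1 - θ) / d) * (δ ^ (d * q) * δ ^ (-θ) *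
          N ^ (q - 1 / d))) := by rw [h1, h3]; ring
    _ ≤ δ ^ (-(κ * (d * (q - 1) - θ))) * ((K2 ^ ((1 - θ) / d) * δ ^ (-(1 - θ))) *
          (δ ^ (d * q) * δ ^ (-θ) * N ^ (q - 1 / d))) := by
        rw [h4]
        gcongr
    _ = K2 ^ ((1 - θ) / d) * ((δ ^ (-(κ * (d * (q - 1) - θ))) * (δ ^ (-(1 - θ)) *
          (δ ^ (d * q) * δ ^ (-θ)))) * N ^ (q - 1 / d)) := by ring
    _ ≤ _ := by
        gcongr
        rw [← Real.rpow_add hδ, ← Real.rpow_add hδ, ← Real.rpow_add hδ]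
        apply Real.rpow_le_rpow_of_exponent_ge hδ hδ1.le
        nlinarith

end Pool.Agent.R251.Smo
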