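import Pool.Agent.R251.Smo.Main
import Pool.Agent.Y254.HK.FinalG

set_option autoImplicit false

/-! Uniform translations, known exponents, and the numerology. -/

open MeasureTheory Set Metric ProbabilityTheory
open scoped ENNReal NNReal

namespace Pool.Agent.R251.Smo
open Pool.Agent.Y254 (mult mult_meas mult_le mult_ne_top lint_mult tube tube_meas Cv Cv_pos vol_tube
  vol_near)
open Pool.Agent.TH705.RR (E vb vb_pos vol_cball)

variable {n : ℕ}

/-- The uniform distribution on a ball. -/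
noncomputable def unif (n : ℕ) (ρ : ℝ) : Measure (E n) := cond volume (closedBall (0 : E n) ρ)

theorem unif_prob {ρ : ℝ} (hρ : 0 < ρ) : IsProbabilityMeasure (unif n ρ) :=
  cond_isProbabilityMeasure_of_finite (measure_closedBall_pos _ _ hρ).ne'
    measure_closedBall_lt_top.ne

theorem unif_tube (hn : 1 ≤ n) {ρ δ : ℝ} (hρ : 0 < ρ) (hδ : 0 < δ) (b : E n) {u : E n}
    (hu : ‖u‖ = 1) :
    unif n ρ (tube δ b u) ≤ ENNReal.ofReal (Cv n / vb n * (δ / ρ) ^ (n - 1)) := by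
  have hv := vb_pos n
  have hC := Cv_pos n
  unfold unif
  rw [cond_apply measurableSet_closedBall, vol_cball _ hρ.le]
  have h1 : volume (closedBall (0 : E n) ρ ∩ tube δ b u) ≤
      ENNReal.ofReal (Cv n * ρ * δ ^ (n - 1)) := by
    refine le_trans (measure_mono ?_) (vol_near hn (a := b) hu hδ hρ 0)
    rintro x ⟨hx1, hx2⟩
    refine ⟨hx2, ?_⟩
    rwa [mem_closedBall, dist_eq_norm] at hx1
  have hpos : 0 < ρ ^ n * vb n := by positivity
  calc (ENNReal.ofReal (ρ ^ n * vb n))⁻¹ * volume (closedBall (0 : E n) ρ ∩ tube δ b u)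
      ≤ (ENNReal.ofReal (ρ ^ n * vb n))⁻¹ * ENNReal.ofReal (Cv n * ρ * δ ^ (n - 1)) := by gcongr
    _ = ENNReal.ofReal ((ρ ^ n * vb n)⁻¹ * (Cv n * ρ * δ ^ (n - 1))) := by
        rw [← ENNReal.ofReal_inv_of_pos hpos, ← ENNReal.ofReal_mul (by positivity)]
    _ = _ := by
        congr 1
        obtain ⟨m, rfl⟩ : ∃ m, n = m + 1 := ⟨n - 1, by omega⟩
        rw [Nat.add_sub_cancel, div_pow, pow_succ]
        field_simp

theorem unif_ball {ρ : ℝ} : ∀ᵐ x ∂(unif n ρ), ‖x‖ ≤ ρ := by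
  unfold unif
  have h := ae_cond_mem (μ := (volume : Measure (E n))) (measurableSet_closedBall (x := (0 : E n)) (ε := ρ))
  filter_upwards [h] with x hx
  rwa [mem_closedBall, dist_zero_right] at hx

theorem unif_model (hn : 1 ≤ n) {ρ δ : ℝ} (hρ : 0 < ρ) (hδ : 0 < δ) (ι : Type) [Fintype ι] :
    IsProbabilityMeasure (Measure.pi fun _ : ι => unif n ρ) ∧
    (∀ i : ι, Measurable fun ω : ι → E n => ω i) ∧
    (∀ i j : ι, i ≠ j → IndepFun (fun ω : ι → E n => ω i) (fun ω : ι → E n => ω j)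
      (Measure.pi fun _ : ι => unif n ρ)) ∧
    (∀ i : ι, ∀ᵐ ω ∂(Measure.pi fun _ : ι => unif n ρ), ‖ω i‖ ≤ ρ) ∧
    (∀ (i : ι) (b u : E n), ‖u‖ = 1 → (Measure.pi fun _ : ι => unif n ρ) {ω | ω i ∈ tube δ b u} ≤
      ENNReal.ofReal (max 1 (Cv n / vb n) * (δ / ρ) ^ (n - 1))) := by
  have hp := unif_prob (n := n) hρ
  have hev : ∀ i : ι, MeasurePreserving (fun ω : ι → E n => ω i)
      (Measure.pi fun _ : ι => unif n ρ) (unif n ρ) := fun i =>
    measurePreserving_eval (fun _ : ι => unif n ρ) i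
  refine ⟨inferInstance, fun i => measurable_pi_apply i, ?_, ?_, ?_⟩
  · intro i j hij
    have h1 := iIndepFun_pi (ι := ι) (μ := fun _ : ι => unif n ρ) (X := fun _ (x : E n) => x)
      (fun _ => aemeasurable_id)
    exact h1.indepFun hij
  · intro i
    exact (hev i).quasiMeasurePreserving.ae unif_ball
  · intro i b u hu
    have h1 : (Measure.pi fun _ : ι => unif n ρ) {ω | ω i ∈ tube δ b u} = unif n ρ (tube δ b u) :=
      (hev i).measure_preimage (tube_meas δ b u).nullMeasurableSet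
    rw [h1]
    refine (unif_tube hn hρ hδ b hu).trans (ENNReal.ofReal_le_ofReal ?_)
    gcongr
    exact le_max_right _ _

/-- The inequality holds for `q > (n+2)/n`. -/
theorem known_wolff (hn : 3 ≤ n) {q : ℝ} (hq : 1 + 2 / (n : ℝ) < q) : ∃ C : ℝ, 0 ≤ C ∧ KAt n q C := by
  obtain ⟨A, hA, h⟩ := Pool.Agent.Y254.wolff hn hq
  exact ⟨A, hA.le, fun δ hδ hδ1 ι _ a e he hsep => h δ hδ hδ1 a e he hsep⟩

/-- The inequality holds for `n ≥ 10`, `q ≥ 1 + 1.676/(n-1)`. -/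
theorem known_hybrid (hn : 10 ≤ n) : ∃ C : ℝ, 0 ≤ C ∧ KAt n (1 + 1.676 / ((n : ℝ) - 1)) C := by
  obtain ⟨d, rfl⟩ : ∃ d, n = d + 1 := ⟨n - 1, by omega⟩
  have hd : 9 ≤ d := by omega
  have hdr : (9 : ℝ) ≤ (d : ℝ) := by exact_mod_cast hd
  have hd0 : (0 : ℝ) < d := by linarith
  have e1 : (((d + 1 : ℕ) : ℝ) - 1) = d := by push_cast; ring
  have hCd : Pool.Agent.Y254HK.Cd d 0 1.676 := by
    refine ⟨le_refl _, by norm_num, by norm_num, ?_, ?_⟩
    · rw [zero_mul, add_zero]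
      apply mul_pos hd0
      norm_num
    · norm_num
      nlinarith
  obtain ⟨C, hC, h⟩ := Pool.Agent.Y254HK.tubes_mix hd hCd (le_refl (1 + 1.676 / (d : ℝ)))
  refine ⟨C, hC.le, ?_⟩
  intro δ hδ hδ1 ι _ a e he hsep
  rw [e1]
  exact h δ hδ hδ1 ι a e he hsep

end Pool.Agent.R251.Smo
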